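/-
helper76. MRW rows BAD, EQP, HIT.
-/
import Pool.Agent.H74.MRW.Def

set_option autoImplicit false

namespace Pool.MRW

open Finset
open scoped Classical

section aux

variable {V : Type} [Fintype V] {P : V → V → ℝ}

/-- value of `W` at a function of the last point -/
theorem h76_W_last (hLIN : LINStmt) (n : ℕ) (x y : V) (g : V → ℝ) :
    W P n x y (fun p => g (p n)) = g y * pw P n x y := by
  have h5 := (hLIN V P n x y).2.2.2.2
  have h2 := (hLIN V P n x y).2.1
  rw [h5 (fun p => g (p n)) (fun _ => g y * 1) (fun p _ hp => by simp [hp]), h2]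
  rfl

theorem h76_split (hLIN : LINStmt) (hSPL : SPLStmt) (m n : ℕ) (x y : V) (g : V → ℝ)
    (F : (ℕ → V) → ℝ) :
    W P (m + n) x y (fun p => g (p m) * F (fun s => p (m + s))) =
      ∑ w, g w * pw P m x w * W P n w y F := by
  rw [hSPL V P m n x y (fun p => g (p m)) F (fun p p' h => by simp [h m le_rfl])]
  exact Finset.sum_congr rfl fun w _ => by rw [h76_W_last hLIN]

theorem h76_splitL (hSPL : SPLStmt) (m n : ℕ) (x y : V)
    (F : (ℕ → V) → ℝ) (hF : Loc m F) :
    W P (m + n) x y F = ∑ w, W P m x w F * pw P n w y := by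
  have h := hSPL V P m n x y F (fun _ => 1) hF
  have e : (fun p : ℕ → V => F p * (1 : ℝ)) = F := by funext p; ring
  rw [← e]
  refine h.trans ?_
  rw [e]
  rfl

end aux

theorem t_bad (hLIN : LINStmt) (hSPL : SPLStmt) (hPWB : PWBStmt) : BADStmt := by
  intro V _ P π hC D R r m s v z a ha
  obtain ⟨hnn, -, -, hrow, hinv, -, -⟩ := hPWB V P π hC
  rw [h76_splitL hSPL]
  swap
  · intro p p' h
    have h1 : p r = p' r := h r (by omega)
    have h2 : p (r + m) = p' (r + m) := h _ le_rfl
    simp only [h1, h2]
    congr 1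
    unfold prd
    have : (∀ i, m ≤ i + R → i ≤ m → π (p (r + i)) ≤ D * π (p' (r + m))) ↔
        (∀ i, m ≤ i + R → i ≤ m → π (p' (r + i)) ≤ D * π (p' (r + m))) := by
      constructor
      · intro H i hi1 hi2
        rw [← h (r + i) (by omega)]; exact H i hi1 hi2
      · intro H i hi1 hi2
        rw [h (r + i) (by omega)]; exact H i hi1 hi2
    by_cases hc : ∀ i, m ≤ i + R → i ≤ m → π (p' (r + i)) ≤ D * π (p' (r + m))
    · rw [if_pos (this.mpr hc), if_pos hc]
    · rw [if_neg (fun h' => hc (this.mp h')), if_neg hc]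
  have hkey : ∀ y, W P (r + m) v y (fun p =>
        (if GG P π D R m (p r) (p (r + m)) < a * π (p (r + m)) then 1 else 0) *
          prd π D R m (p (r + m)) (fun i => p (r + i))) ≤ a * π y := by
    intro y
    rw [(hLIN V P (r + m) v y).2.2.2.2 _ (fun p =>
      (fun x => if GG P π D R m x y < a * π y then (1 : ℝ) else 0) (p r) *
        prd π D R m y (fun i => p (r + i))) (fun p _ hp => by simp only [hp])]
    refine (h76_split hLIN hSPL r m v y
      (fun x => if GG P π D R m x y < a * π y then (1 : ℝ) else 0) (prd π D R m y)).trans_le ?_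
    have hb : ∀ x, (fun x => if GG P π D R m x y < a * π y then (1 : ℝ) else 0) x * pw P r v x *
        W P m x y (prd π D R m y) ≤ pw P r v x * (a * π y) := by
      intro x
      change _ * _ * GG P π D R m x y ≤ _
      by_cases hx : GG P π D R m x y < a * π y
      · simp only [hx, if_true, one_mul]
        exact mul_le_mul_of_nonneg_left hx.le (hnn r v x)
      · simp only [hx, if_false, zero_mul]
        exact mul_nonneg (hnn r v x) (mul_nonneg ha (hC.pos y).le)
    refine (Finset.sum_le_sum fun x _ => hb x).trans ?_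
    rw [← Finset.sum_mul]
    have := mul_le_mul_of_nonneg_right (hrow r v) (mul_nonneg ha (hC.pos y).le)
    simpa using this
  refine (Finset.sum_le_sum fun y _ => mul_le_mul_of_nonneg_right (hkey y) (hnn s y z)).trans ?_
  calc ∑ y, a * π y * pw P s y z = a * ∑ y, π y * pw P s y z := by
        rw [Finset.mul_sum]; exact Finset.sum_congr rfl fun y _ => by ring
    _ ≤ a * π z := mul_le_mul_of_nonneg_left (hinv s z) ha

theorem t_eqp (hLIN : LINStmt) (hSPL : SPLStmt) (hPWB : PWBStmt) : EQPStmt := by
  intro V _ P π hC r m s v z c₁ τ hc hτ hm hs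
  obtain ⟨hnn, -, -, hrow, hinv, -, -⟩ := hPWB V P π hC
  rw [h76_splitL hSPL]
  swap
  · intro p p' h
    simp only [h r (by omega), h (r + m) le_rfl]
  have hkey : ∀ y, W P (r + m) v y (fun p => if p r = p (r + m) then (1 : ℝ) else 0)
      ≤ pw P r v y * c₁ := by
    intro y
    rw [(hLIN V P (r + m) v y).2.2.2.2 _ (fun p =>
      (fun x => if x = y then (1 : ℝ) else 0) (p r) * (fun _ => (1 : ℝ)) (fun i => p (r + i)))
      (fun p _ hp => by simp only [hp, mul_one])]
    refine (h76_split hLIN hSPL r m v y (fun x => if x = y then (1 : ℝ) else 0)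
      (fun _ => (1 : ℝ))).trans_le ?_
    rw [Finset.sum_eq_single y]
    · simp only [if_true, one_mul]
      exact mul_le_mul_of_nonneg_left (hm y) (hnn r v y)
    · intro x _ hx
      simp [hx]
    · intro h; exact absurd (Finset.mem_univ y) h
  have h2 : ∀ y, W P (r + m) v y (fun p => if p r = p (r + m) then (1 : ℝ) else 0) * pw P s y z
      ≤ pw P r v y * (c₁ * (τ * π z)) := by
    intro y
    calc _ ≤ pw P r v y * c₁ * pw P s y z := mul_le_mul_of_nonneg_right (hkey y) (hnn s y z)
      _ ≤ pw P r v y * c₁ * (τ * π z) :=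
          mul_le_mul_of_nonneg_left (hs y) (mul_nonneg (hnn r v y) hc)
      _ = _ := by ring
  refine (Finset.sum_le_sum fun y _ => h2 y).trans ?_
  rw [← Finset.sum_mul]
  have h3 : 0 ≤ c₁ * (τ * π z) := mul_nonneg hc (mul_nonneg hτ (hC.pos z).le)
  have := mul_le_mul_of_nonneg_right (hrow r v) h3
  calc _ ≤ 1 * (c₁ * (τ * π z)) := this
    _ = _ := by ring

theorem t_hit (hLIN : LINStmt) (hSPL : SPLStmt) (hPWB : PWBStmt) : HITStmt := by
  intro V _ P π hC R t n D c₁ τ ε b x y hD hR hRt htn hc₁ hτ hε hb hc hτ' hG hb1 hb2 hb3 s w hs hsn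
  obtain ⟨hnn, -, -, hrow, hinv, -, -⟩ := hPWB V P π hC
  have hpy : 0 < π y := hC.pos y
  -- it is enough to bound by `ε b τ π y`
  set r := min s (n - s) with hr
  have hr1 : 1 ≤ r := by omega
  suffices h : W P n x y (fun p => (if p s = w then 1 else 0) * prd π D R n y p) ≤
      ε * b r * (τ * π y) by
    calc _ ≤ ε * b r * (τ * π y) := h
      _ = b r * (ε * τ * π y) := by ring
      _ ≤ b r * GG P π D R n x y := mul_le_mul_of_nonneg_left hG (hb r)
  -- basic bound
  have h1 : W P n x y (fun p => (if p s = w then 1 else 0) * prd π D R n y p) ≤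
      pw P s x w * pw P (n - s) w y := by
    obtain ⟨m, rfl⟩ : ∃ m, n = s + m := ⟨n - s, by omega⟩
    have e1 : s + m - s = m := by omega
    rw [e1]
    calc W P (s + m) x y (fun p => (if p s = w then 1 else 0) * prd π D R (s + m) y p)
        ≤ W P (s + m) x y (fun p => (fun u => if u = w then (1 : ℝ) else 0) (p s) *
            (fun _ => (1 : ℝ)) (fun i => p (s + i))) := by
          refine (hLIN V P (s + m) x y).2.2.2.1 hC.nn _ _ fun p _ _ => ?_
          refine mul_le_mul_of_nonneg_left ?_ ?_
          · unfold prd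
            split_ifs <;> norm_num
          · split_ifs <;> norm_num
      _ = pw P s x w * pw P m w y := by
          refine (h76_split hLIN hSPL s m x y (fun u => if u = w then (1 : ℝ) else 0)
            (fun _ => (1 : ℝ))).trans ?_
          rw [Finset.sum_eq_single w]
          · simp only [if_true, one_mul]; rfl
          · intro u _ hu
            simp [hu]
          · intro h; exact absurd (Finset.mem_univ w) h
  by_cases hns : t ≤ n - s
  · calc _ ≤ pw P s x w * pw P (n - s) w y := h1
      _ ≤ (ε * b r) * (τ * π y) := by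
          refine mul_le_mul (hb1 r hr1 s (by omega) x w) (hτ' _ hns w y) (hnn _ _ _) ?_
          exact mul_nonneg hε.le (hb r)
  · have hrs : r = n - s := by omega
    have hst : t ≤ s := by omega
    have hxw : pw P s x w ≤ τ * π w := hτ' s hst x w
    by_cases hRr : n - s ≤ R
    · by_cases hw : π w ≤ D * π y
      · calc _ ≤ pw P s x w * pw P (n - s) w y := h1
          _ ≤ (τ * π w) * c₁ := by
              refine mul_le_mul hxw (hc _ (by omega) w y) (hnn _ _ _) ?_
              exact mul_nonneg hτ.le (hC.pos w).le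
          _ ≤ (τ * (D * π y)) * c₁ := by
              refine mul_le_mul_of_nonneg_right ?_ hc₁
              exact mul_le_mul_of_nonneg_left hw hτ.le
          _ = (D * c₁) * (τ * π y) := by ring
          _ ≤ (ε * b r) * (τ * π y) := by
              refine mul_le_mul_of_nonneg_right (hb2 r hr1 (by omega)) ?_
              exact mul_nonneg hτ.le hpy.le
      · have h0 : W P n x y (fun p => (if p s = w then 1 else 0) * prd π D R n y p) =
            W P n x y (fun p => (0 : ℝ) * 1) := by
          refine (hLIN V P n x y).2.2.2.2 _ _ fun p _ _ => ?_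
          by_cases hp : p s = w
          · have : prd π D R n y p = 0 := by
              unfold prd
              rw [if_neg]
              intro H
              exact hw (hp ▸ H s (by omega) hsn.le)
            rw [this]; simp
          · simp [hp]
        rw [h0, (hLIN V P n x y).2.1 0 (fun _ => 1), zero_mul]
        exact mul_nonneg (mul_nonneg hε.le (hb r)) (mul_nonneg hτ.le hpy.le)
    · have h3 := hb3 r (by omega) (by omega) w y
      calc _ ≤ pw P s x w * pw P (n - s) w y := h1
        _ ≤ (τ * π w) * pw P (n - s) w y := mul_le_mul_of_nonneg_right hxw (hnn _ _ _)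
        _ = τ * (pw P r w y * π w) := by rw [hrs]; ring
        _ ≤ τ * (ε * b r * π y) := mul_le_mul_of_nonneg_left h3 hτ.le
        _ = _ := by ring

end Pool.MRW
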